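import Mathlib

open Finset Finsupp

namespace Pool.Agent.H.MP_c8d2d2_an

abbrev Z2 := ℤ × ℤ
abbrev V := Z2 →₀ ℝ

def e : Fin 3 → Z2 := ![(1, 0), (0, 1), (-1, -1)]
def uo : Fin 3 → Z2 := ![(0, 0), (-1, 0), (-1, -1)]
def dn : Fin 3 → Z2 := ![(0, -1), (0, 0), (-1, -1)]

noncomputable def bd : (V × V) →ₗ[ℝ] (Fin 3 → V) := LinearMap.pi fun x =>
  lmapDomain ℝ ℝ (· - uo x) ∘ₗ LinearMap.fst ℝ V V - lmapDomain ℝ ℝ (· - dn x) ∘ₗ LinearMap.snd ℝ V V

lemma bd_apply (u d : V) (x : Fin 3) :
    bd (u, d) x = mapDomain (· - uo x) u - mapDomain (· - dn x) d := rfl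

noncomputable def edge (p : Z2) (y : Fin 3) : Fin 3 → V := Pi.single y (single p 1)

noncomputable def chain : Z2 → List (Fin 3) → Fin 3 → V
  | _, [] => 0
  | p, y :: l => edge p y + chain (p + e y) l

lemma swap1 (p : Z2) (x : Fin 3) : edge p x + edge (p + e x) (x + 1) -
    (edge p (x + 1) + edge (p + e (x + 1)) x) ∈ LinearMap.range bd := by
  refine ⟨(single (p + uo x) 1, single (p + dn (x + 1)) 1), funext fun z => ?_⟩
  obtain ⟨a, b⟩ := p
  rw [bd_apply, mapDomain_single, mapDomain_single]
  fin_cases x <;> fin_cases z <;> simp [edge, e, uo, dn, sub_eq_add_neg]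

lemma swap (p : Z2) (x y : Fin 3) : edge p x + edge (p + e x) y -
    (edge p y + edge (p + e y) x) ∈ LinearMap.range bd := by
  have : y = x ∨ y = x + 1 ∨ x = y + 1 := by revert x y; decide
  rcases this with rfl | rfl | rfl
  · simp
  · exact swap1 p x
  · simpa using neg_mem (swap1 p y)

lemma chain_perm {l l' : List (Fin 3)} (h : l.Perm l') :
    ∀ p, chain p l - chain p l' ∈ LinearMap.range bd := by
  induction h with
  | nil => simp
  | cons x _ ih => intro p; simpa [chain] using ih (p + e x)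
  | swap x y l =>
    intro p
    have := swap p y x
    simp only [chain]
    rw [add_right_comm p (e y)]
    convert this using 1
    abel
  | trans _ _ ih1 ih2 => intro p; simpa using add_mem (ih1 p) (ih2 p)

def cyc : ℕ → List (Fin 3)
  | 0 => []
  | n + 1 => 0 :: 1 :: 2 :: cyc n

lemma chain_cyc (p : Z2) (n : ℕ) : chain p (cyc n) ∈ LinearMap.range bd := by
  induction n with
  | zero => simp [cyc, chain]
  | succ n ih =>
    have h : p + e 0 + e 1 + e 2 = p := by simp [e, add_assoc]
    simp only [cyc, chain, h, ← add_assoc]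
    refine add_mem ⟨(single p 1, 0), funext fun z => ?_⟩ ih
    obtain ⟨a, b⟩ := p
    rw [bd_apply, mapDomain_single]
    fin_cases z <;> simp [edge, e, uo, sub_eq_add_neg]

lemma count_cyc (n : ℕ) (x : Fin 3) : (cyc n).count x = n := by
  induction n with
  | zero => simp [cyc]
  | succ n ih => fin_cases x <;> simp_all [cyc, List.count_cons]

lemma chain_range (N : ℕ) : ∀ (j : ℕ → Fin 3) (p : Z2), chain p ((List.range N).map j) =
    ∑ k ∈ range N, edge (p + ∑ l ∈ range k, e (j l)) (j k) := by
  induction N with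
  | zero => simp [chain]
  | succ N ih =>
    intro j p
    rw [List.range_succ_eq_map, List.map_cons, List.map_map, chain, ih, sum_range_succ', add_comm]
    simp only [Function.comp, Nat.succ_eq_add_one, sum_range_succ', range_zero, sum_empty, add_zero]
    congr 1
    refine sum_congr rfl fun k _ => ?_
    congr 1
    abel

lemma pair_le {ν μ : V} (h : ∀ p, |ν p| ≤ μ p) (g : Z2 → ℝ) :
    |linearCombination ℝ g ν| ≤ linearCombination ℝ (fun p => |g p|) μ := by
  have hs : ν.support ⊆ μ.support := fun p hp => by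
    rw [Finsupp.mem_support_iff] at *
    exact ((abs_pos.2 hp).trans_le (h p)).ne'
  rw [linearCombination_apply, linearCombination_apply, sum_of_support_subset _ hs _ (by simp),
    Finsupp.sum]
  refine (abs_sum_le_sum_abs _ _).trans (sum_le_sum fun p _ => ?_)
  simp only [smul_eq_mul, abs_mul]
  gcongr
  exact h p

lemma shift_apply (u : V) (v p : Z2) : mapDomain (· - v) u p = u (p + v) := by
  simpa using mapDomain_apply (sub_left_injective (b := v)) u (p + v)

lemma key (μ : Fin 3 → V) (hμ : μ ∈ LinearMap.range bd) (h0 : ∀ x p, 0 ≤ μ x p)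
    (g : Fin 3 → Z2 → ℝ) (x y : Fin 3) (δ : ℝ) (hu : ∀ q, g y (q - uo y) - g x (q - uo x) = δ)
    (hd : ∀ q, g y (q - dn y) - g x (q - dn x) = -δ) :
    |δ| * linearCombination ℝ (fun _ => (1 : ℝ)) (μ x) ≤
      linearCombination ℝ (fun p => |g x p|) (μ x) + linearCombination ℝ (fun p => |g y p|) (μ y) := by
  obtain ⟨⟨u, d⟩, rfl⟩ := hμ
  set u' : V := u.mapRange (|·|) abs_zero
  set d' : V := d.mapRange (|·|) abs_zero
  have h1 : ∀ z p, |bd (u', d') z p| ≤ bd (u, d) z p := fun z p => by
    have := h0 z p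
    rw [← abs_of_nonneg this]
    simp only [bd_apply, Finsupp.sub_apply, shift_apply, u', d', mapRange_apply]
    exact abs_abs_sub_abs_le_abs_sub _ _
  have a1 := pair_le (h1 x) (g x)
  have a2 := pair_le (h1 y) (g y)
  have b1 := pair_le (ν := u) (μ := u') (fun p => by simp [u']) fun _ => 1
  have b2 := pair_le (ν := d) (μ := d') (fun p => by simp [d']) fun _ => 1
  have c : ∀ (w : V) (f h : Z2 → ℝ) (c : ℝ), (∀ q, f q - h q = c) → linearCombination ℝ f w -
      linearCombination ℝ h w = c * linearCombination ℝ (fun _ => (1 : ℝ)) w := by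
    intro w f h c hc
    simp only [linearCombination_apply, Finsupp.sum, ← sum_sub_distrib, Finset.mul_sum, smul_eq_mul]
    exact sum_congr rfl fun p _ => by rw [← hc p]; ring
  have c1 := c u' _ _ _ hu
  have c2 := c d' _ _ _ hd
  simp only [bd_apply, map_sub, linearCombination_mapDomain, Function.comp_def, abs_one] at *
  set U := linearCombination ℝ (fun _ => (1 : ℝ)) u'
  set D := linearCombination ℝ (fun _ => (1 : ℝ)) d'
  have hU : 0 ≤ U := (abs_nonneg _).trans b1
  have hD : 0 ≤ D := (abs_nonneg _).trans b2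
  have : |δ| * (U + D) = |δ * (U + D)| := by rw [abs_mul, abs_of_nonneg (add_nonneg hU hD)]
  rw [abs_le] at a1 a2 b1 b2
  calc _ ≤ |δ| * (U + D) := by gcongr; linarith
    _ ≤ _ := by rw [this, abs_le]; constructor <;> linarith

/-- midpoints for the cyclic arrangement -/
noncomputable def mu (q : Fin 3 → ℝ) : Fin 3 → ℝ := ![q 0 / 2, q 0 + q 1 / 2, (q 0 + q 1) / 2]

lemma comb (n : ℕ) (j : ℕ → Fin 3) (hj : ∀ a, #{k ∈ range (3 * n) | j k = a} = n)
    (q : Fin 3 → ℝ) (hq : q 0 + q 1 + q 2 = 0) (t : ℝ) (x y : Fin 3) :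
    |mu q y - mu q x| * n ≤
      ∑ k ∈ range (3 * n) with j k = x, |∑ l ∈ range k, q (j l) + q (j k) / 2 - t| +
      ∑ k ∈ range (3 * n) with j k = y, |∑ l ∈ range k, q (j l) + q (j k) / 2 - t| := by
  have hp : ((List.range (3 * n)).map j).Perm (cyc n) := by
    refine List.perm_iff_count.2 fun a => ?_
    rw [count_cyc, ← hj a, List.count_eq_countP, List.countP_map, List.countP_eq_length_filter]
    congr 1
    simp only [hj]
    rfl
  have hm := add_mem (chain_perm hp 0) (chain_cyc 0 n)
  rw [sub_add_cancel, chain_range] at hm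
  let lv : Z2 → ℝ := fun p => p.1 * q 0 + p.2 * q 1
  have hl : ∀ k, lv (0 + ∑ l ∈ range k, e (j l)) = ∑ l ∈ range k, q (j l) := fun k => by
    induction k with
    | zero => simp [lv]
    | succ k ih =>
      rw [sum_range_succ, sum_range_succ, ← ih, ← add_assoc]
      generalize j k = z
      fin_cases z <;> simp [lv, e] <;> linarith
  have ev : ∀ (g : Z2 → ℝ) z, linearCombination ℝ g ((∑ k ∈ range (3 * n),
      edge (0 + ∑ l ∈ range k, e (j l)) (j k)) z) =
      ∑ k ∈ range (3 * n) with j k = z, g (0 + ∑ l ∈ range k, e (j l)) := fun g z => by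
    rw [Finset.sum_apply, map_sum, sum_filter]
    refine sum_congr rfl fun k _ => ?_
    by_cases h : j k = z
    · simp [edge, h]
    · simp [edge, h]
  have := key _ hm (fun z p => by
      rw [Finset.sum_apply, Finsupp.finsetSum_apply]
      refine sum_nonneg fun k _ => ?_
      simp only [edge, Pi.single_apply]
      split_ifs
      · rw [Finsupp.single_apply]; split_ifs <;> norm_num
      · simp) (fun z p => lv p + q z / 2 - t) x y (mu q y - mu q x)
    (fun p => by fin_cases x <;> fin_cases y <;> simp [lv, uo, mu] <;> linarith)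
    (fun p => by fin_cases x <;> fin_cases y <;> simp [lv, dn, mu] <;> linarith)
  rw [ev, ev, ev] at this
  simp only [hl, sum_const, hj, nsmul_eq_mul, mul_one] at this
  convert this using 2 <;> exact sum_congr rfl fun k hk => by rw [(mem_filter.1 hk).2]

lemma energy (Q w X : ℕ → ℝ) (hw : ∀ k, 0 ≤ w k) (hX : ∀ k, X (k + 1) = X k + (w k + w (k + 1)))
    (K : ℕ) :
    ∑ k ∈ range K, Q k * X k = (∑ k ∈ range K, Q k) * (X K - w K) -
      ∑ k ∈ range K, 2 * w k * (∑ l ∈ range k, Q l + Q k / 2) ∧
    -(∑ k ∈ range K, ∑ m ∈ range K, Q k * Q m * |X k - X m|) / 2 =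
      ∑ k ∈ range K, 2 * w k * ((∑ l ∈ range k, Q l + Q k / 2) ^ 2 + Q k ^ 2 / 4) -
      (∑ k ∈ range K, Q k) * ∑ k ∈ range K, 2 * w k * (∑ l ∈ range k, Q l + Q k / 2) := by
  have mono : Monotone X := monotone_nat_of_le_succ fun k => by
    rw [hX]; linarith [hw k, hw (k + 1)]
  induction K with
  | zero => simp
  | succ K ih =>
    obtain ⟨h1, h2⟩ := ih
    have e1 : ∑ k ∈ range K, Q k * Q K * |X k - X K| =
        Q K * ((∑ k ∈ range K, Q k) * X K - ∑ k ∈ range K, Q k * X k) := by
      rw [Finset.sum_mul, ← sum_sub_distrib, Finset.mul_sum]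
      refine sum_congr rfl fun k hk => ?_
      rw [abs_of_nonpos (sub_nonpos.2 (mono (mem_range.1 hk).le))]; ring
    have e2 : ∑ k ∈ range K, Q K * Q k * |X K - X k| =
        ∑ k ∈ range K, Q k * Q K * |X k - X K| :=
      sum_congr rfl fun k _ => by rw [abs_sub_comm]; ring
    simp only [sum_range_succ _ K, sum_add_distrib, e2, e1, hX, sub_self, abs_zero]
    constructor
    · linear_combination h1
    · linear_combination h2 + Q K * h1

end Pool.Agent.H.MP_c8d2d2_an
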